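import Mathlib

open scoped RealInnerProductSpace

noncomputable section

namespace Pool.Agent.Results.MP_8ede36_co.LocallyFinitePlane

/-- The Euclidean plane. -/
abbrev E2 : Type := EuclideanSpace ℝ (Fin 2)

/-- A graph `G` is roughly isometric to the Euclidean plane with multiplicative constant `1`:
some map `f : V(G) → ℝ²` distorts distances by a bounded additive amount only, and has a
coarsely dense image. -/
def RoughlyPlane {V : Type} (G : SimpleGraph V) : Prop :=
  ∃ (f : V → E2) (C : ℝ), 0 < C ∧ (∀ x y, |‖f x - f y‖ - (G.dist x y : ℝ)| < C) ∧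
    ∀ z : E2, ∃ x, ‖f x - z‖ < C

/-! ### The vertex set -/

/-- The mesh parameter in the annulus of radius `n`. -/
def M (n : ℕ) : ℕ := 64 * (n + 3) ^ 2

/-- The vertex set: all points `(a/M_n, b/M_n)` of norm at least `n`, for some `n`. -/
def VSet : Set E2 :=
  {p | ∃ n : ℕ, (n : ℝ) ≤ ‖p‖ ∧ ∃ a b : ℤ, p 0 = a / M n ∧ p 1 = b / M n}

theorem M_pos (n : ℕ) : (0 : ℝ) < M n := by
  unfold M
  positivity

theorem coord_le_norm (p : E2) (i : Fin 2) : |p i| ≤ ‖p‖ := by
  have := PiLp.norm_apply_le p i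
  simpa using this

theorem norm_le_add (p : E2) : ‖p‖ ≤ |p 0| + |p 1| := by
  rw [EuclideanSpace.norm_eq, Fin.sum_univ_two]
  apply Real.sqrt_le_iff.2
  refine ⟨by positivity, ?_⟩
  simp only [Real.norm_eq_abs]
  nlinarith [abs_nonneg (p 0), abs_nonneg (p 1)]

/-- Bounded parts of the vertex set are finite. -/
theorem finite_ball (r : ℝ) : {p ∈ VSet | ‖p‖ ≤ r}.Finite := by
  have hsub : {p ∈ VSet | ‖p‖ ≤ r} ⊆ ⋃ n ∈ Finset.range (⌊r⌋₊ + 1),
      ((fun q : ℤ × ℤ => (!₂[(q.1 : ℝ) / M n, (q.2 : ℝ) / M n] : E2)) ''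
        (Set.Icc (-⌈r * M n⌉) ⌈r * M n⌉ ×ˢ Set.Icc (-⌈r * M n⌉) ⌈r * M n⌉)) := by
    rintro p ⟨⟨n, hn, a, b, ha, hb⟩, hp⟩
    have hr : 0 ≤ r := (norm_nonneg p).trans hp
    simp only [Set.mem_iUnion]
    refine ⟨n, ?_, ?_⟩
    · rw [Finset.mem_range, Nat.lt_add_one_iff]
      exact Nat.le_floor (hn.trans hp)
    · have hM := M_pos n
      have key : ∀ (c : ℤ) (i : Fin 2), p i = c / M n → c ∈ Set.Icc (-⌈r * M n⌉) ⌈r * M n⌉ := by
        intro c i hc
        have h1 : |p i| ≤ r := (coord_le_norm p i).trans hp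
        rw [hc, abs_div, abs_of_pos hM, div_le_iff₀ hM] at h1
        have h2 : |(c : ℝ)| ≤ ⌈r * M n⌉ := h1.trans (Int.le_ceil _)
        have h3 := abs_le.1 h2
        constructor
        · exact_mod_cast h3.1
        · exact_mod_cast h3.2
      refine ⟨(a, b), ⟨key a 0 ha, key b 1 hb⟩, ?_⟩
      ext i
      fin_cases i
      · simp [ha]
      · simp [hb]
  refine Set.Finite.subset ?_ hsub
  apply Set.Finite.biUnion (Finset.finite_toSet _)
  intro n _
  apply Set.Finite.image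
  exact (Set.finite_Icc _ _).prod (Set.finite_Icc _ _)

/-- Density of the vertex set. -/
theorem dense (p : E2) : ∃ v ∈ VSet, ‖v - p‖ ≤ 1 / (64 * (‖p‖ + 1) ^ 2) := by
  set n := ⌊‖p‖⌋₊ - 1 with hn
  have hM := M_pos n
  have hp0 := norm_nonneg p
  set v : E2 := !₂[(round (p 0 * M n) : ℝ) / M n, (round (p 1 * M n) : ℝ) / M n] with hv
  have hi : ∀ i, |(v - p) i| ≤ 1 / (2 * M n) := by
    intro i
    have h : ∀ t : ℝ, |(round (t * M n) : ℝ) / M n - t| ≤ 1 / (2 * M n) := by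
      intro t
      have h1 := abs_sub_round (t * M n)
      have h2 : (round (t * M n) : ℝ) / M n - t = -((t * M n - round (t * M n)) / M n) := by
        field_simp
        ring
      rw [h2, abs_neg, abs_div, abs_of_pos hM, div_le_div_iff₀ hM (by positivity)]
      nlinarith
    fin_cases i
    · simpa [hv] using h (p 0)
    · simpa [hv] using h (p 1)
  have hdist : ‖v - p‖ ≤ 1 / M n := by
    refine (norm_le_add _).trans ?_
    have h1 := hi 0
    have h2 := hi 1
    have h3 : (1 : ℝ) / M n = 1 / (2 * M n) + 1 / (2 * M n) := by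
      field_simp
      norm_num
    linarith
  have hMle : (64 : ℝ) * (‖p‖ + 1) ^ 2 ≤ M n := by
    have h1 : ‖p‖ + 1 ≤ (n : ℝ) + 3 := by
      have h2 : ‖p‖ < ⌊‖p‖⌋₊ + 1 := Nat.lt_floor_add_one _
      have h3 : ⌊‖p‖⌋₊ ≤ n + 1 := by omega
      have h4 : (⌊‖p‖⌋₊ : ℝ) ≤ n + 1 := by exact_mod_cast h3
      linarith
    unfold M
    push_cast
    gcongr
  refine ⟨v, ?_, hdist.trans ?_⟩
  · refine ⟨n, ?_, round (p 0 * M n), round (p 1 * M n), ?_, ?_⟩
    · rcases Nat.eq_zero_or_pos n with h0 | h0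
      · rw [h0]
        simp
      · have h1 : (n : ℝ) + 1 ≤ ‖p‖ := by
          have h2 : n + 1 ≤ ⌊‖p‖⌋₊ := by omega
          have h3 := Nat.floor_le hp0
          have h4 : ((n + 1 : ℕ) : ℝ) ≤ ⌊‖p‖⌋₊ := by exact_mod_cast h2
          push_cast at h4
          linarith
        have h2 : (1 : ℝ) / M n ≤ 1 := by
          rw [div_le_one hM]
          nlinarith
        have h3 := norm_sub_norm_le p v
        rw [norm_sub_rev] at h3
        linarith
    · simp [hv]
    · simp [hv]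
  · gcongr

/-! ### The universal coordinates on lines -/

/-- The coordinates `σ_j`, a slight contraction of the integers. -/
def sig (j : ℤ) : ℝ := j - (1 / 4) * ((j : ℝ) / (1 + |(j : ℝ)|))

theorem sig_near (j : ℤ) : |sig j - j| ≤ 1 / 4 := by
  unfold sig
  have h1 : (0 : ℝ) < 1 + |(j : ℝ)| := by positivity
  have h2 : |(j : ℝ) - (1 / 4) * ((j : ℝ) / (1 + |(j : ℝ)|)) - j| =
      (1 / 4) * (|(j : ℝ)| / (1 + |(j : ℝ)|)) := by
    have : (j : ℝ) - (1 / 4) * ((j : ℝ) / (1 + |(j : ℝ)|)) - j =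
        -((1 / 4) * ((j : ℝ) / (1 + |(j : ℝ)|))) := by ring
    rw [this, abs_neg, abs_mul, abs_of_pos (by norm_num : (0 : ℝ) < 1 / 4), abs_div,
      abs_of_pos h1]
  rw [h2]
  have h3 : |(j : ℝ)| / (1 + |(j : ℝ)|) ≤ 1 := by
    rw [div_le_one h1]
    linarith [abs_nonneg (j : ℝ)]
  linarith

theorem sig_gap (j : ℤ) :
    sig (j + 1) - sig j = 1 - (1 / 4) * (1 / ((1 + |(j : ℝ)|) * (1 + |(j : ℝ) + 1|))) := by
  unfold sig
  push_cast
  have h1 : (0 : ℝ) < 1 + |(j : ℝ)| := by positivity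
  have h2 : (0 : ℝ) < 1 + |(j : ℝ) + 1| := by positivity
  have key : ((j : ℝ) + 1) * (1 + |(j : ℝ)|) - j * (1 + |(j : ℝ) + 1|) = 1 := by
    rcases le_or_gt 0 j with h | h
    · have h3 : (0 : ℝ) ≤ j := by exact_mod_cast h
      rw [abs_of_nonneg h3, abs_of_nonneg (by linarith)]
      ring
    · have h3 : (j : ℝ) + 1 ≤ 0 := by exact_mod_cast h
      rw [abs_of_nonpos (by linarith : (j : ℝ) ≤ 0), abs_of_nonpos h3]
      ring
  have h4 : ((j : ℝ) + 1) / (1 + |(j : ℝ) + 1|) - j / (1 + |(j : ℝ)|) =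
      1 / ((1 + |(j : ℝ)|) * (1 + |(j : ℝ) + 1|)) := by
    rw [div_sub_div _ _ h2.ne' h1.ne']
    congr 1
    · linarith
    · ring
  linarith

/-- The mesh at a point whose norm is at least `|σ_j|`. -/
def mu (j : ℤ) : ℝ := 1 / (64 * (|sig j| + 1) ^ 2)

theorem mu_pos (j : ℤ) : 0 < mu j := by
  unfold mu
  positivity

theorem mu_le (j : ℤ) : mu j ≤ 1 / (36 * (1 + |(j : ℝ)|) ^ 2) := by
  unfold mu
  have h1 : (3 / 4) * (1 + |(j : ℝ)|) ≤ |sig j| + 1 := by
    have h2 := sig_near j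
    have h3 : |(j : ℝ)| ≤ |sig j| + |sig j - j| := by
      have := abs_sub_abs_le_abs_sub (j : ℝ) (sig j)
      rw [abs_sub_comm] at this
      linarith
    have h4 := abs_nonneg (j : ℝ)
    linarith
  have h5 : 36 * (1 + |(j : ℝ)|) ^ 2 ≤ 64 * (|sig j| + 1) ^ 2 := by
    have h6 : ((3 / 4) * (1 + |(j : ℝ)|)) ^ 2 ≤ (|sig j| + 1) ^ 2 := by gcongr
    nlinarith
  gcongr

theorem step_le (j : ℤ) : sig (j + 1) - sig j + mu j + mu (j + 1) ≤ 1 := by
  rw [sig_gap]
  have h1 := mu_le j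
  have h2 := mu_le (j + 1)
  push_cast at h2
  have a1 : (0 : ℝ) < 1 + |(j : ℝ)| := by positivity
  have a2 : (0 : ℝ) < 1 + |(j : ℝ) + 1| := by positivity
  have b1 : 1 + |(j : ℝ) + 1| ≤ 2 * (1 + |(j : ℝ)|) := by
    have := abs_add_le (j : ℝ) 1
    rw [abs_one] at this
    linarith [abs_nonneg (j : ℝ)]
  have b2 : 1 + |(j : ℝ)| ≤ 2 * (1 + |(j : ℝ) + 1|) := by
    have := abs_sub ((j : ℝ) + 1) 1
    rw [abs_one, add_sub_cancel_right] at this
    linarith [abs_nonneg ((j : ℝ) + 1)]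
  set A := 1 + |(j : ℝ)|
  set B := 1 + |(j : ℝ) + 1|
  have c0 : (1 / 18) * (1 / (A * B)) = 1 / (18 * (A * B)) := by field_simp
  have c1 : 1 / (36 * A ^ 2) ≤ (1 / 18) * (1 / (A * B)) := by
    rw [c0]
    apply one_div_le_one_div_of_le (by positivity)
    nlinarith
  have c2 : 1 / (36 * B ^ 2) ≤ (1 / 18) * (1 / (A * B)) := by
    rw [c0]
    apply one_div_le_one_div_of_le (by positivity)
    nlinarith
  have c3 : 0 < 1 / (A * B) := by positivity
  linarith

theorem sig_floor (s : ℝ) : ∃ a : ℤ, sig a ≤ s ∧ ∀ z : ℤ, sig z ≤ s → z ≤ a := by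
  apply Int.exists_greatest_of_bdd
  · refine ⟨⌈s + 1⌉, fun z hz => ?_⟩
    have h1 := (abs_le.1 (sig_near z)).1
    have h2 : (z : ℝ) ≤ s + 1 := by linarith
    exact_mod_cast h2.trans (Int.le_ceil _)
  · refine ⟨⌊s - 1⌋, ?_⟩
    have h1 := (abs_le.1 (sig_near ⌊s - 1⌋)).2
    have h2 := Int.floor_le (s - 1)
    linarith

/-! ### The graph -/

/-- The graph: points of the vertex set at distance at most `1` are joined. -/
def G : SimpleGraph VSet where
  Adj p q := p ≠ q ∧ ‖(p : E2) - q‖ ≤ 1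
  symm := ⟨fun p q h => ⟨h.1.symm, by rw [norm_sub_rev]; exact h.2⟩⟩
  loopless := ⟨fun p h => h.1 rfl⟩

theorem short_walk {p q : VSet} (h : ‖(p : E2) - q‖ ≤ 1) : ∃ w : G.Walk p q, w.length ≤ 1 := by
  by_cases hpq : p = q
  · subst hpq
    exact ⟨SimpleGraph.Walk.nil, by simp⟩
  · have hadj : G.Adj p q := ⟨hpq, h⟩
    exact ⟨SimpleGraph.Walk.cons hadj SimpleGraph.Walk.nil, by simp⟩

theorem seq_walk (v : ℕ → VSet) (h : ∀ k, ‖(v k : E2) - v (k + 1)‖ ≤ 1) (n : ℕ) :
    ∃ w : G.Walk (v 0) (v n), w.length ≤ n := by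
  induction n with
  | zero => exact ⟨SimpleGraph.Walk.nil, by simp⟩
  | succ n ih =>
    obtain ⟨w, hw⟩ := ih
    obtain ⟨w', hw'⟩ := short_walk (h n)
    refine ⟨w.append w', ?_⟩
    rw [SimpleGraph.Walk.length_append]
    omega

theorem walk_lower {p q : VSet} (w : G.Walk p q) : ‖(p : E2) - q‖ ≤ w.length := by
  induction w with
  | nil => simp
  | @cons a b c h w ih =>
    rw [SimpleGraph.Walk.length_cons]
    push_cast
    have h1 : ‖(a : E2) - b‖ ≤ 1 := h.2
    have h2 := norm_sub_le_norm_sub_add_norm_sub (a : E2) b c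
    linarith

/-- The main estimate: `d_G(x,y) ≤ ‖x - y‖ + 7/2`. -/
theorem walk_upper (x y : VSet) : ∃ w : G.Walk x y, (w.length : ℝ) ≤ ‖(x : E2) - y‖ + 7 / 2 := by
  by_cases hxy : x = y
  · subst hxy
    exact ⟨SimpleGraph.Walk.nil, by simp; norm_num⟩
  have hne : (y : E2) - x ≠ 0 := by
    intro h
    exact hxy (Subtype.ext (sub_eq_zero.1 h)).symm
  set D := ‖(y : E2) - x‖ with hD
  have hDpos : 0 < D := norm_pos_iff.2 hne
  set u : E2 := D⁻¹ • ((y : E2) - x) with hu
  have hun : ‖u‖ = 1 := by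
    rw [hu, norm_smul, norm_inv, Real.norm_of_nonneg hDpos.le, ← hD, inv_mul_cancel₀ hDpos.ne']
  have hyx : (y : E2) = x + D • u := by
    rw [hu, smul_smul, mul_inv_cancel₀ hDpos.ne', one_smul]
    abel
  set sx : ℝ := ⟪(x : E2), u⟫ with hsx
  -- the point of the line with coordinate `t`
  let P : ℝ → E2 := fun t => (x : E2) + (t - sx) • u
  have hPu : ∀ t, ⟪P t, u⟫ = t := by
    intro t
    simp only [P]
    rw [inner_add_left, real_inner_smul_left, real_inner_self_eq_norm_sq, hun, ← hsx]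
    ring
  have hPn : ∀ t, |t| ≤ ‖P t‖ := by
    intro t
    have h1 := abs_real_inner_le_norm (P t) u
    rw [hPu, hun, mul_one] at h1
    exact h1
  have hPP : ∀ t t', ‖P t - P t'‖ = |t - t'| := by
    intro t t'
    have : P t - P t' = (t - t') • u := by
      simp only [P]
      rw [add_sub_add_left_eq_sub, ← sub_smul]
      congr 1
      ring
    rw [this, norm_smul, hun, mul_one, Real.norm_eq_abs]
  have hPx : P sx = x := by simp [P]
  have hPy : P (sx + D) = y := by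
    simp only [P]
    rw [hyx]
    simp
  have hv : ∀ j : ℤ, ∃ v : VSet, ‖(v : E2) - P (sig j)‖ ≤ mu j := by
    intro j
    obtain ⟨v, hv, h⟩ := dense (P (sig j))
    refine ⟨⟨v, hv⟩, h.trans ?_⟩
    unfold mu
    have := hPn (sig j)
    gcongr
  choose v hv using hv
  have hstep : ∀ j : ℤ, ‖(v j : E2) - v (j + 1)‖ ≤ 1 := by
    intro j
    have h1 := hv j
    have h2 := hv (j + 1)
    have h3 := hPP (sig (j + 1)) (sig j)
    have h4 := step_le j
    have h5 := mu_pos j
    have h6 := mu_pos (j + 1)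
    have h7 : 0 ≤ sig (j + 1) - sig j := by
      rw [sig_gap]
      have a1 : (1 : ℝ) ≤ (1 + |(j : ℝ)|) * (1 + |(j : ℝ) + 1|) := by
        nlinarith [abs_nonneg (j : ℝ), abs_nonneg ((j : ℝ) + 1)]
      have a2 : 1 / ((1 + |(j : ℝ)|) * (1 + |(j : ℝ) + 1|)) ≤ 1 := by
        rw [div_le_one (by linarith)]
        exact a1
      linarith
    rw [abs_of_nonneg h7] at h3
    have e : (v j : E2) - v (j + 1) = (v j - P (sig j)) - (P (sig (j + 1)) - P (sig j)) -
        (v (j + 1) - P (sig (j + 1))) := by abel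
    rw [e]
    refine (norm_sub_le _ _).trans ?_
    have := norm_sub_le ((v j : E2) - P (sig j)) (P (sig (j + 1)) - P (sig j))
    linarith
  obtain ⟨a, ha1, ha2⟩ := sig_floor sx
  obtain ⟨b, hb1, hb2⟩ := sig_floor (sx + D)
  have hab : a ≤ b := hb2 a (by linarith)
  have ha3 : sx < sig (a + 1) := by
    by_contra h
    have := ha2 (a + 1) (not_lt.1 h)
    omega
  have hb3 : sx + D < sig (b + 1) := by
    by_contra h
    have := hb2 (b + 1) (not_lt.1 h)
    omega
  obtain ⟨n, hn⟩ := Int.le.dest hab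
  have hwx : ‖(x : E2) - v a‖ ≤ 1 := by
    have h1 := hv a
    have h2 := hPP sx (sig a)
    rw [hPx, abs_of_nonneg (by linarith)] at h2
    have h3 := step_le a
    have h4 := mu_pos (a + 1)
    have e : (x : E2) - v a = (x - P (sig a)) - (v a - P (sig a)) := by abel
    rw [e]
    refine (norm_sub_le _ _).trans ?_
    linarith
  have hwy : ‖(v b : E2) - y‖ ≤ 1 := by
    have h1 := hv b
    have h2 := hPP (sx + D) (sig b)
    rw [hPy, abs_of_nonneg (by linarith)] at h2
    have h3 := step_le b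
    have h4 := mu_pos (b + 1)
    have e : (v b : E2) - y = (v b - P (sig b)) - (y - P (sig b)) := by abel
    rw [e]
    refine (norm_sub_le _ _).trans ?_
    linarith
  obtain ⟨w1, hw1⟩ := short_walk hwx
  obtain ⟨w3, hw3⟩ := short_walk hwy
  obtain ⟨w2, hw2⟩ := seq_walk (fun k => v (a + k)) (by
    intro k
    have := hstep (a + k)
    push_cast
    rw [← add_assoc]
    exact this) n
  have hva : v (a + (0 : ℕ)) = v a := by simp
  have hvb : v (a + n) = v b := by rw [hn]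
  refine ⟨(w1.append ((w2.copy hva hvb).append w3)), ?_⟩
  rw [SimpleGraph.Walk.length_append, SimpleGraph.Walk.length_append,
    SimpleGraph.Walk.length_copy]
  push_cast
  have c1 : (w1.length : ℝ) ≤ 1 := by exact_mod_cast hw1
  have c2 : (w2.length : ℝ) ≤ n := by exact_mod_cast hw2
  have c3 : (w3.length : ℝ) ≤ 1 := by exact_mod_cast hw3
  have c4 : (n : ℝ) = b - a := by
    have : (b : ℝ) = a + n := by exact_mod_cast hn.symm
    linarith
  have c5 := (abs_le.1 (sig_near a)).2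
  have c6 := (abs_le.1 (sig_near b)).1
  have c7 : sig (a + 1) - sig a ≤ 1 := by
    have := step_le a
    linarith [mu_pos a, mu_pos (a + 1)]
  have c8 : ‖(x : E2) - y‖ = D := by rw [hD, norm_sub_rev]
  rw [c8]
  linarith

/-- **Main theorem.** There is a connected, locally finite graph which is roughly isometric to the
Euclidean plane with multiplicative constant `1`. -/
theorem result : ∃ (V : Type) (G : SimpleGraph V), G.Connected ∧
    (∀ v, (G.neighborSet v).Finite) ∧ RoughlyPlane G := by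
  have hne : Nonempty VSet := by
    obtain ⟨v, hv, -⟩ := dense 0
    exact ⟨⟨v, hv⟩⟩
  have hconn : G.Connected := by
    rw [SimpleGraph.connected_iff]
    exact ⟨fun x y => ⟨(walk_upper x y).choose⟩, hne⟩
  refine ⟨VSet, G, hconn, ?_, fun v => (v : E2), 4, by norm_num, ?_, ?_⟩
  · intro v
    have h1 := finite_ball (‖(v : E2)‖ + 1)
    have h2 : (Subtype.val '' (G.neighborSet v)) ⊆ {p ∈ VSet | ‖p‖ ≤ ‖(v : E2)‖ + 1} := by
      rintro _ ⟨q, hq, rfl⟩
      refine ⟨q.2, ?_⟩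
      have h3 : ‖(v : E2) - q‖ ≤ 1 := hq.2
      have h4 := norm_sub_norm_le (q : E2) v
      rw [norm_sub_rev] at h4
      linarith
    exact Set.Finite.of_finite_image (h1.subset h2) Subtype.val_injective.injOn
  · intro x y
    obtain ⟨w, hw⟩ := walk_upper x y
    have h1 : (G.dist x y : ℝ) ≤ w.length := by exact_mod_cast SimpleGraph.dist_le w
    obtain ⟨w', hw'⟩ := (hconn x y).exists_walk_length_eq_dist
    have h2 := walk_lower w'
    rw [hw'] at h2
    rw [abs_lt]
    constructor <;> linarith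
  · intro z
    obtain ⟨v, hv, h⟩ := dense z
    refine ⟨⟨v, hv⟩, lt_of_le_of_lt h ?_⟩
    have h1 : (1 : ℝ) ≤ 64 * (‖z‖ + 1) ^ 2 := by nlinarith [norm_nonneg z]
    have h2 : 1 / (64 * (‖z‖ + 1) ^ 2) ≤ 1 := by
      rw [div_le_one (by linarith)]
      exact h1
    linarith

end Pool.Agent.Results.MP_8ede36_co.LocallyFinitePlane
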